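import Pool.Agent.Q276.CD.Stm2

set_option autoImplicit false

/-! Project CD (helper276), job M3: size of the parameters. -/

namespace Pool.Agent.Q151.CD

open MeasureTheory Filter Pool.Agent.Q276.CD

lemma tendsto_V : Tendsto V atTop atTop :=
  Real.tendsto_log_atTop.comp Real.tendsto_log_atTop

lemma tendsto_l3 : Tendsto l3 atTop atTop := Real.tendsto_log_atTop.comp tendsto_V

/-- a property of large `l` holds eventually -/
lemma ev_l {P : ℝ → Prop} (h : ∀ᶠ x : ℝ in atTop, P x) : ∀ᶠ T : ℝ in atTop, P (l3 T) :=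
  tendsto_l3.eventually h

lemma ev_V {P : ℝ → Prop} (h : ∀ᶠ x : ℝ in atTop, P x) : ∀ᶠ T : ℝ in atTop, P (V T) :=
  tendsto_V.eventually h

lemma ev_L {P : ℝ → Prop} (h : ∀ᶠ x : ℝ in atTop, P x) : ∀ᶠ T : ℝ in atTop, P (Real.log T) :=
  Real.tendsto_log_atTop.eventually h

/-- powers against the exponential function -/
lemma ev_pow_exp (a b : ℝ) (hb : 0 < b) (n : ℕ) : ∀ᶠ x : ℝ in atTop, a * x ^ n ≤ Real.exp (b * x) := by
  have h1 : Tendsto (fun x : ℝ => x ^ n * Real.exp (-(b * x))) atTop (nhds 0) := by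
    have := Real.tendsto_pow_mul_exp_neg_atTop_nhds_zero n
    have h2 : Tendsto (fun x : ℝ => b * x) atTop atTop := tendsto_id.const_mul_atTop hb
    have h3 := (this.comp h2).const_mul ((b ^ n)⁻¹)
    rw [mul_zero] at h3
    refine h3.congr fun x => ?_
    simp only [Function.comp_apply, mul_pow]
    field_simp
  have h2 := h1.const_mul a
  rw [mul_zero] at h2
  have h3 := h2.eventually (ge_mem_nhds (show (0:ℝ) < 1 by norm_num))
  filter_upwards [h3] with x hx
  have h4 : Real.exp (-(b * x)) * Real.exp (b * x) = 1 := by rw [← Real.exp_add]; simp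
  have h5 := Real.exp_pos (b * x)
  calc a * x ^ n = (a * (x ^ n * Real.exp (-(b * x)))) * Real.exp (b * x) := by
        rw [show (a * (x ^ n * Real.exp (-(b * x)))) * Real.exp (b * x) =
          a * x ^ n * (Real.exp (-(b * x)) * Real.exp (b * x)) by ring, h4, mul_one]
    _ ≤ 1 * Real.exp (b * x) := mul_le_mul_of_nonneg_right hx h5.le
    _ = Real.exp (b * x) := one_mul _

/-- linear against quadratic -/
lemma ev_lin (c a b : ℝ) (hc : 0 < c) : ∀ᶠ x : ℝ in atTop, a * x + b ≤ c * x ^ 2 := by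
  filter_upwards [eventually_ge_atTop (1:ℝ), eventually_ge_atTop ((|a| + |b|) / c)] with x h1 h2
  rw [div_le_iff₀ hc] at h2
  have h3 := le_abs_self a
  have h4 := le_abs_self b
  have h5 : 0 ≤ |b| := abs_nonneg b
  nlinarith

/-- relations between the parameters -/
structure Pm (T : ℝ) : Prop where
  T1 : 1 ≤ T
  l1 : 1 ≤ l3 T
  V1 : 1 ≤ V T
  L1 : 1 ≤ Real.log T
  eV : V T = Real.exp (l3 T)
  eL : Real.log T = Real.exp (V T)
  eT : T = Real.exp (Real.log T)
  lV : l3 T ≤ V T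
  VL : 40 * V T ^ 4 ≤ Real.log T

lemma ev_Pm : ∀ᶠ T : ℝ in atTop, Pm T := by
  filter_upwards [eventually_ge_atTop (1:ℝ), ev_l (eventually_ge_atTop (1:ℝ)),
    ev_V (eventually_ge_atTop (1:ℝ)), ev_L (eventually_ge_atTop (1:ℝ)),
    ev_V (ev_pow_exp 40 1 one_pos 4)] with T h1 h2 h3 h4 h5
  have e1 : Real.log T = Real.exp (V T) := (Real.exp_log (by linarith)).symm
  have e2 : V T = Real.exp (l3 T) := (Real.exp_log (by linarith)).symm
  refine ⟨h1, h2, h3, h4, e2, e1, (Real.exp_log (by linarith)).symm, ?_, ?_⟩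
  · have := Real.add_one_le_exp (l3 T)
    rw [← e2] at this
    linarith
  · rw [one_mul, ← e1] at h5
    exact h5

lemma floor_exp_ge {x : ℝ} (hx : 2 ≤ x) : Real.exp (x / 2) ≤ ((⌊Real.exp x⌋₊ : ℕ) : ℝ) := by
  have h1 := Nat.lt_floor_add_one (Real.exp x)
  have h2 : Real.exp x = Real.exp (x / 2) * Real.exp (x / 2) := by rw [← Real.exp_add]; congr 1; ring
  have h3 : 2 ≤ Real.exp (x / 2) := by
    have := Real.add_one_le_exp (x / 2)
    linarith
  nlinarith

section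

variable {T : ℝ} (h : Pm T)

include h

lemma Pm.x40 : 40 ≤ Real.log T / V T ^ 4 := by
  have := h.VL
  have := h.V1
  rw [le_div_iff₀ (by positivity)]
  linarith

lemma Pm.y0_ge : Real.exp (Real.log T / V T ^ 4 / 2) ≤ ((⌊Real.exp (Real.log T / V T ^ 4)⌋₊ : ℕ) : ℝ) :=
  floor_exp_ge (by linarith [h.x40])

lemma Pm.y0_3 : 3 ≤ ⌊Real.exp (Real.log T / V T ^ 4)⌋₊ := by
  have h1 := h.y0_ge
  have h2 := Real.add_one_le_exp (Real.log T / V T ^ 4 / 2)
  have h3 := h.x40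
  have : (3:ℝ) ≤ ((⌊Real.exp (Real.log T / V T ^ 4)⌋₊ : ℕ) : ℝ) := by linarith
  exact_mod_cast this

/-- `log N0` -/
lemma Pm.log_y0 : Real.log (y0 T) ≤ 2 * (Real.log T / V T ^ 4) := by
  have h1 := h.x40
  have h2 : (y0 T : ℝ) ≤ Real.exp (Real.log T / V T ^ 4 + 1) := by
    unfold y0
    push_cast
    have h3 := Nat.floor_le (Real.exp_pos (Real.log T / V T ^ 4)).le
    have h4 : Real.exp (Real.log T / V T ^ 4 + 1) = Real.exp (Real.log T / V T ^ 4) * Real.exp 1 :=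
      Real.exp_add _ _
    have h5 : 2 ≤ Real.exp 1 := by have := Real.add_one_le_exp 1; linarith
    have h6 : 1 ≤ Real.exp (Real.log T / V T ^ 4) := Real.one_le_exp (by linarith)
    rw [h4]
    nlinarith
  have h7 : (0:ℝ) < (y0 T : ℝ) := by unfold y0; positivity
  have h8 := Real.log_le_log h7 h2
  rw [Real.log_exp] at h8
  linarith

/-- the sum of `1/p` over the first block -/
lemma Pm.R1_y0_le {C : ℝ} (hC : ∀ N : ℕ, 3 ≤ N → |R1 (N + 1) - Real.log (Real.log N)| ≤ C) :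
    R1 (y0 T) ≤ V T + C := by
  have h1 := (abs_le.mp (hC _ h.y0_3)).2
  have h2 : Real.log ((⌊Real.exp (Real.log T / V T ^ 4)⌋₊ : ℕ) : ℝ) ≤ Real.log T := by
    have h3 := Nat.floor_le (Real.exp_pos (Real.log T / V T ^ 4)).le
    have h4 : (0:ℝ) < ((⌊Real.exp (Real.log T / V T ^ 4)⌋₊ : ℕ) : ℝ) := by
      have := h.y0_3
      exact_mod_cast (by omega : 0 < ⌊Real.exp (Real.log T / V T ^ 4)⌋₊)
    have h5 := Real.log_le_log h4 h3
    rw [Real.log_exp] at h5
    have h6 : Real.log T / V T ^ 4 ≤ Real.log T := div_le_self (by linarith [h.L1]) (one_le_pow₀ h.V1)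
    linarith
  have h7 : 0 < Real.log ((⌊Real.exp (Real.log T / V T ^ 4)⌋₊ : ℕ) : ℝ) := by
    apply Real.log_pos
    have := h.y0_3
    exact_mod_cast (by omega : 1 < ⌊Real.exp (Real.log T / V T ^ 4)⌋₊)
  have h8 := Real.log_le_log h7 h2
  have h9 : Real.log (Real.log T) = V T := rfl
  unfold y0
  rw [h9] at h8
  linarith

lemma Pm.R1_y0_ge {C : ℝ} (hC : ∀ N : ℕ, 3 ≤ N → |R1 (N + 1) - Real.log (Real.log N)| ≤ C) :
    V T - 4 * l3 T - 1 - C ≤ R1 (y0 T) := by
  have h1 := (abs_le.mp (hC _ h.y0_3)).1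
  have h2 := h.y0_ge
  have h3 := h.x40
  have h4 := Real.log_le_log (Real.exp_pos _) h2
  rw [Real.log_exp] at h4
  have h5 := Real.log_le_log (show 0 < Real.log T / V T ^ 4 / 2 by linarith) h4
  have h6 : Real.log (Real.log T / V T ^ 4 / 2) = V T - 4 * l3 T - Real.log 2 := by
    have hV := h.V1
    have hL := h.L1
    rw [Real.log_div (by positivity) (by norm_num), Real.log_div (by positivity) (by positivity),
      Real.log_pow]
    have : Real.log (Real.log T) = V T := rfl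
    rw [this]
    have : Real.log (V T) = l3 T := rfl
    rw [this]
    push_cast
    ring
  have h7 : Real.log 2 ≤ 1 := by have := Real.log_two_lt_d9; linarith
  unfold y0
  rw [h6] at h5
  linarith

/-- the cutoff -/
lemma Pm.y2_le : (y2 T : ℝ) ≤ T ^ ((1:ℝ) / 20) :=
  Nat.floor_le (Real.rpow_nonneg (by linarith [h.T1]) _)

lemma Pm.rp (a : ℝ) : T ^ a = Real.exp (a * Real.log T) := by
  rw [Real.rpow_def_of_pos (by linarith [h.T1]), mul_comm]

lemma Pm.y2_ge : Real.exp (Real.log T / 20 / 2) ≤ (y2 T : ℝ) := by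
  have h1 : 2 ≤ Real.log T / 20 := by
    have := h.VL
    have h2 : 1 ≤ V T ^ 4 := one_le_pow₀ h.V1
    linarith
  have h3 := floor_exp_ge h1
  unfold y2
  rw [h.rp]
  have : (1:ℝ) / 20 * Real.log T = Real.log T / 20 := by ring
  rw [this]
  exact h3

lemma Pm.y2_3 : 3 ≤ y2 T := by
  have h1 := h.y2_ge
  have h2 := Real.add_one_le_exp (Real.log T / 20 / 2)
  have h3 := Real.add_one_le_exp (1:ℝ)
  have h4 : 40 ≤ Real.log T := by
    have := h.VL
    have h2 : 1 ≤ V T ^ 4 := one_le_pow₀ h.V1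
    linarith
  have h5 : Real.exp 1 ≤ Real.exp (Real.log T / 20 / 2) := Real.exp_le_exp.mpr (by linarith)
  have h6 : (2:ℝ) < (y2 T : ℝ) := by
    have := Real.exp_one_gt_d9
    linarith
  have : 2 < y2 T := by exact_mod_cast h6
  omega

lemma Pm.R1_y2_le {C : ℝ} (hC : ∀ N : ℕ, 3 ≤ N → |R1 (N + 1) - Real.log (Real.log N)| ≤ C) :
    R1 (y2 T + 1) ≤ V T + C := by
  have h1 := (abs_le.mp (hC _ h.y2_3)).2
  have h4 : (0:ℝ) < (y2 T : ℝ) := by
    have := h.y2_3
    exact_mod_cast (by omega : 0 < y2 T)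
  have h5 := Real.log_le_log h4 h.y2_le
  rw [Real.log_rpow (by linarith [h.T1])] at h5
  have h6 : Real.log (y2 T) ≤ Real.log T := by
    have := h.L1
    linarith
  have h7 : 0 < Real.log (y2 T) := by
    apply Real.log_pos
    have := h.y2_3
    exact_mod_cast (by omega : 1 < y2 T)
  have h8 := Real.log_le_log h7 h6
  have h9 : Real.log (Real.log T) = V T := rfl
  rw [h9] at h8
  linarith

lemma Pm.y0_le_y2 : y0 T ≤ y2 T + 1 := by
  unfold y0 y2
  have : ⌊Real.exp (Real.log T / V T ^ 4)⌋₊ ≤ ⌊T ^ ((1:ℝ) / 20)⌋₊ := by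
    apply Nat.floor_le_floor
    rw [h.rp]
    apply Real.exp_le_exp.mpr
    have h1 := h.V1
    have h2 := h.L1
    -- `V^4 ≥ 20`
    have h3 : 20 * Real.log T ≤ Real.log T * V T ^ 4 := by
      have h4 : 20 ≤ V T ^ 4 := by
        have h5 := h.eV
        have h6 := h.l1
        have h7 : Real.exp 1 ≤ V T := by rw [h5]; exact Real.exp_le_exp.mpr h6
        have h8 := Real.exp_one_gt_d9
        have h9 : 2.7 ≤ V T := by linarith
        have h10 : (2.7:ℝ) ^ 4 ≤ V T ^ 4 := pow_le_pow_left₀ (by norm_num) h9 4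
        norm_num at h10 ⊢
        linarith
      nlinarith
    rw [div_le_iff₀ (by positivity)]
    linarith
  omega

lemma Pm.y0_le_y1 : y0 T ≤ y1 T := by
  unfold y0 y1
  have : ⌊Real.exp (Real.log T / V T ^ 4)⌋₊ ≤ ⌊Real.exp (Real.log T / l3 T ^ 3)⌋₊ := by
    apply Nat.floor_le_floor
    apply Real.exp_le_exp.mpr
    have h1 := h.V1
    have h2 := h.L1
    have h3 := h.l1
    have h4 := h.lV
    apply div_le_div_of_nonneg_left (by linarith) (by positivity)
    calc l3 T ^ 3 ≤ V T ^ 3 := pow_le_pow_left₀ (by linarith) h4 3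
      _ ≤ V T ^ 4 := pow_le_pow_right₀ h1 (by norm_num)
  omega

lemma Pm.y1_ge : Real.exp (Real.log T / l3 T ^ 3) ≤ (y1 T : ℝ) := by
  unfold y1
  push_cast
  exact (Nat.lt_floor_add_one _).le

lemma Pm.Dl_le {C : ℝ} (hC : ∀ N : ℕ, 3 ≤ N → |R1 (N + 1) - Real.log (Real.log N)| ≤ C) :
    Dl (y0 T) (y2 T + 1) ≤ 4 * l3 T + 1 + 2 * C := by
  unfold Dl
  linarith [h.R1_y2_le hC, h.R1_y0_ge hC]

lemma Pm.Dl_nonneg : 0 ≤ Dl (y0 T) (y2 T + 1) := by
  unfold Dl
  linarith [R1_mono h.y0_le_y2]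

lemma Pm.d0_le : (d0 T : ℝ) ≤ 2 * V T ^ 2 := by
  unfold d0
  have h1 := Nat.ceil_lt_add_one (show 0 ≤ V T ^ 2 by positivity)
  have h2 : 1 ≤ V T ^ 2 := one_le_pow₀ h.V1
  linarith

lemma Pm.d0_ge : V T ^ 2 ≤ (d0 T : ℝ) := Nat.le_ceil _

lemma Pm.d1_ge : l3 T ^ 2 ≤ (d1 T : ℝ) := Nat.le_ceil _

end

end Pool.Agent.Q151.CD
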