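import Pool.Agent.Q151.CD.Asy

set_option autoImplicit false

/-! Project CD (helper276), job M3. -/

namespace Pool.Agent.Q151.CD

open MeasureTheory Filter Pool.Agent.Q276.CD Finset

/-- the difference of the coefficients -/
noncomputable def del (k σ : ℝ) (N0 d0 N1 d1 n : ℕ) : ℝ :=
  cM k N0 d0 N1 d1 n * (n:ℝ) ^ (-σ) - aI k N0 d0 n

section point

variable {k σ : ℝ} {N0 d0 N1 d1 n : ℕ}

lemma rpow_le_one' (hσ : 0 ≤ σ) (hn : n ≠ 0) : (n:ℝ) ^ (-σ) ≤ 1 :=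
  Real.rpow_le_one_of_one_le_of_nonpos (by exact_mod_cast Nat.one_le_iff_ne_zero.mpr hn) (by linarith)

lemma rpow_nonneg' : 0 ≤ (n:ℝ) ^ (-σ) := Real.rpow_nonneg (Nat.cast_nonneg n) _

lemma one_sub_rpow (hσ : 0 ≤ σ) (hn : n ≠ 0) : |(n:ℝ) ^ (-σ) - 1| ≤ σ * Real.log n := by
  have h0 : (0:ℝ) < n := by exact_mod_cast Nat.pos_of_ne_zero hn
  have h1 := rpow_le_one' hσ hn
  rw [abs_of_nonpos (by linarith), Real.rpow_def_of_pos h0]
  have := Real.add_one_le_exp (Real.log n * -σ)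
  linarith

lemma rr_pow_le {a b : ℕ} (h : a ≤ b) : 1 ≤ rr ^ b * (rr ^ a)⁻¹ := by
  have hr := rr_pos
  have h1 : rr ^ a ≤ rr ^ b := pow_le_pow_right₀ one_le_rr h
  have h2 : 0 < rr ^ a := by positivity
  rw [← div_eq_mul_inv, le_div_iff₀ h2, one_mul]
  exact h1

open Classical in
/-- the pointwise estimate -/
theorem del_sq (hk : 0 ≤ k) (hk1 : k ≤ 1) (hσ : 0 ≤ σ) (h01 : N0 ≤ N1) (hn : n ≠ 0)
    (hN0 : 1 ≤ N0) (hN1 : 1 ≤ N1) :
    del k σ N0 d0 N1 d1 n ^ 2 ≤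
      (σ * (d0 * Real.log N0)) ^ 2 * (if n ∈ Nat.smoothNumbers N0 then mf (wm k 2 N0) n else 0) +
      (((N1:ℝ) ^ (-σ)) ^ 2 + (rr ^ d1)⁻¹) * mf (wm k 2 N0) n + (rr ^ d0)⁻¹ * mf (tm 4) n := by
  have hr := rr_pos
  have w0 : 0 ≤ mf (wm k 2 N0) n := mf_nonneg wm_nonneg n
  have w1 : 0 ≤ mf (tm 4) n := mf_nonneg (tm_nonneg 4) n
  have w2 : 0 ≤ (σ * (d0 * Real.log N0)) ^ 2 *
      (if n ∈ Nat.smoothNumbers N0 then mf (wm k 2 N0) n else 0) := by
    refine mul_nonneg (sq_nonneg _) ?_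
    split_ifs
    · exact w0
    · exact le_rfl
  have w3 : 0 ≤ (((N1:ℝ) ^ (-σ)) ^ 2 + (rr ^ d1)⁻¹) * mf (wm k 2 N0) n := by positivity
  have w4 : 0 ≤ (rr ^ d0)⁻¹ * mf (tm 4) n := by positivity
  have hp1 := rpow_le_one' hσ hn
  have hp0 := rpow_nonneg' (σ := σ) (n := n)
  by_cases ho : Ob 0 N0 n ≤ d0
  · by_cases hs : n ∈ Nat.smoothNumbers N0
    · -- the first case
      have e1 : del k σ N0 d0 N1 d1 n = aI k N0 d0 n * ((n:ℝ) ^ (-σ) - 1) := by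
        unfold del
        rw [cM_smooth h01 hs ho]
        ring
      have e2 : aI k N0 d0 n ^ 2 ≤ mf (wm k 2 N0) n := by
        have e3 : aI k N0 d0 n = mf (wl k N0) n := by
          rw [aI_apply, if_pos ⟨hs, ho⟩]
          refine mf_congr fun p hp => ?_
          rw [Nat.mem_primeFactors] at hp
          unfold wl
          rw [if_pos ((sm_iff.mp hs).2 p hp.1 hp.2.1)]
        rw [e3]
        exact wl_sq_le n
      have e4 : |(n:ℝ) ^ (-σ) - 1| ≤ σ * (d0 * Real.log N0) := by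
        refine (one_sub_rpow hσ hn).trans (mul_le_mul_of_nonneg_left ?_ hσ)
        refine (log_le_Ob hs).trans (mul_le_mul_of_nonneg_right (by exact_mod_cast ho) ?_)
        exact Real.log_nonneg (by exact_mod_cast hN0)
      have e5 : ((n:ℝ) ^ (-σ) - 1) ^ 2 ≤ (σ * (d0 * Real.log N0)) ^ 2 := by
        rw [← sq_abs]
        exact pow_le_pow_left₀ (abs_nonneg _) e4 2
      have e6 : del k σ N0 d0 N1 d1 n ^ 2 ≤ (σ * (d0 * Real.log N0)) ^ 2 *
          (if n ∈ Nat.smoothNumbers N0 then mf (wm k 2 N0) n else 0) := by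
        rw [if_pos hs, e1, mul_pow, mul_comm]
        exact mul_le_mul e5 e2 (sq_nonneg _) (sq_nonneg _)
      linarith
    · -- not smooth
      have a0 : aI k N0 d0 n = 0 := by
        rw [aI_apply, if_neg]
        exact fun h => hs h.1
      have e1 : del k σ N0 d0 N1 d1 n = cM k N0 d0 N1 d1 n * (n:ℝ) ^ (-σ) := by
        unfold del
        rw [a0, sub_zero]
      have hle := cM_le (k := k) (d1 := d1) hk h01 hn ho
      have e2 : cM k N0 d0 N1 d1 n ^ 2 ≤ mf (wl k N0) n ^ 2 := by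
        rw [← sq_abs]
        exact pow_le_pow_left₀ (abs_nonneg _) hle 2
      by_cases ho0 : Ob N0 N1 n = 0
      · -- a large prime factor
        obtain ⟨p, hp, hpn, hpN⟩ : ∃ p, p.Prime ∧ p ∣ n ∧ N0 ≤ p := by
          by_contra hc
          push Not at hc
          exact hs (sm_iff.mpr ⟨hn, fun p hp hd => hc p hp hd⟩)
        have hpN1 : N1 ≤ p := by
          by_contra hc
          push Not at hc
          have := Ob_pos hp hpn hn ⟨hpN, hc⟩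
          omega
        have hnN : N1 ≤ n := hpN1.trans (Nat.le_of_dvd (Nat.pos_of_ne_zero hn) hpn)
        have e3 : (n:ℝ) ^ (-σ) ≤ (N1:ℝ) ^ (-σ) :=
          Real.rpow_le_rpow_of_nonpos (by exact_mod_cast hN1) (by exact_mod_cast hnN) (by linarith)
        have e4 : ((n:ℝ) ^ (-σ)) ^ 2 ≤ ((N1:ℝ) ^ (-σ)) ^ 2 := pow_le_pow_left₀ hp0 e3 2
        have e5 : del k σ N0 d0 N1 d1 n ^ 2 ≤ ((N1:ℝ) ^ (-σ)) ^ 2 * mf (wm k 2 N0) n := by
          rw [e1, mul_pow, mul_comm]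
          exact mul_le_mul e4 (e2.trans (wl_sq_le n)) (sq_nonneg _) (sq_nonneg _)
        have e6 : 0 ≤ (rr ^ d1)⁻¹ * mf (wm k 2 N0) n := by positivity
        nlinarith
      · by_cases ho1 : Ob N0 N1 n ≤ d1
        · -- vanishing
          obtain ⟨q, hq, hqn, hq0, hq1⟩ : ∃ q, q.Prime ∧ q ∣ n ∧ N0 ≤ q ∧ q < N1 := by
            by_contra hc
            push Not at hc
            refine ho0 (Ob_eq_zero fun p hp hd h => ?_)
            have := hc p hp hd h.1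
            omega
          have e3 : del k σ N0 d0 N1 d1 n = 0 := by
            rw [e1, cM_zero h01 hn ho ho1 hq hqn hq0 hq1, zero_mul]
          rw [e3]
          nlinarith
        · -- many prime factors in the second block
          push Not at ho1
          have e3 : del k σ N0 d0 N1 d1 n ^ 2 ≤ mf (wl k N0) n ^ 2 := by
            rw [e1, mul_pow]
            have : ((n:ℝ) ^ (-σ)) ^ 2 ≤ 1 := pow_le_one₀ hp0 hp1
            nlinarith [sq_nonneg (cM k N0 d0 N1 d1 n)]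
          have e4 := wl_sq_Ob (k := k) (N0 := N0) N1 n
          have e5 := rr_pow_le ho1.le
          have e6 : mf (wl k N0) n ^ 2 ≤ (rr ^ d1)⁻¹ * mf (wm k 2 N0) n := by
            calc mf (wl k N0) n ^ 2 ≤ mf (wl k N0) n ^ 2 * (rr ^ Ob N0 N1 n * (rr ^ d1)⁻¹) :=
                  le_mul_of_one_le_right (sq_nonneg _) e5
              _ = (rr ^ d1)⁻¹ * (mf (wl k N0) n ^ 2 * rr ^ Ob N0 N1 n) := by ring
              _ ≤ _ := mul_le_mul_of_nonneg_left e4 (by positivity)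
          have e7 : 0 ≤ ((N1:ℝ) ^ (-σ)) ^ 2 * mf (wm k 2 N0) n := by positivity
          nlinarith
  · -- many small prime factors
    push Not at ho
    have a0 : aI k N0 d0 n = 0 := by
      rw [aI_apply, if_neg]
      exact fun h => absurd h.2 (by omega)
    have e1 : del k σ N0 d0 N1 d1 n = cM k N0 d0 N1 d1 n * (n:ℝ) ^ (-σ) := by
      unfold del
      rw [a0, sub_zero]
    have hle := cM_abs (k := k) (N0 := N0) (d0 := d0) (N1 := N1) (d1 := d1)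
      (by rw [abs_of_nonneg hk]; exact hk1) hn
    have e2 : cM k N0 d0 N1 d1 n ^ 2 ≤ tau n ^ 4 := by
      rw [← sq_abs]
      have := pow_le_pow_left₀ (abs_nonneg _) hle 2
      rw [← pow_mul] at this
      exact this
    have e3 : del k σ N0 d0 N1 d1 n ^ 2 ≤ tau n ^ 4 := by
      rw [e1, mul_pow]
      have : ((n:ℝ) ^ (-σ)) ^ 2 ≤ 1 := pow_le_one₀ hp0 hp1
      nlinarith [sq_nonneg (cM k N0 d0 N1 d1 n)]
    have e4 := tau_pow_Ob 4 0 N0 n
    have e5 := rr_pow_le ho.le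
    have e6 : tau n ^ 4 ≤ (rr ^ d0)⁻¹ * mf (tm 4) n := by
      have ht := tau_nonneg n
      calc tau n ^ 4 ≤ tau n ^ 4 * (rr ^ Ob 0 N0 n * (rr ^ d0)⁻¹) :=
            le_mul_of_one_le_right (by positivity) e5
        _ = (rr ^ d0)⁻¹ * (tau n ^ 4 * rr ^ Ob 0 N0 n) := by ring
        _ ≤ _ := mul_le_mul_of_nonneg_left e4 (by positivity)
    linarith

/-- the crude estimate -/
lemma del_abs (hk : 0 ≤ k) (hk1 : k ≤ 1) (hσ : 0 ≤ σ) (hn : n ≠ 0) :
    |del k σ N0 d0 N1 d1 n| ≤ 2 * (n:ℝ) ^ 2 := by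
  have h1 : (1:ℝ) ≤ n := by exact_mod_cast Nat.one_le_iff_ne_zero.mpr hn
  have hk' : |k| ≤ 1 := by rw [abs_of_nonneg hk]; exact hk1
  have h2 : tau n ≤ n := by
    rw [tau_eq hn]
    exact_mod_cast Nat.card_divisors_le_self n
  have h3 := cM_abs (N0 := N0) (d0 := d0) (N1 := N1) (d1 := d1) hk' hn
  have h4 := aI_abs (N := N0) (d := d0) hk' n
  have h5 : |cM k N0 d0 N1 d1 n| * (n:ℝ) ^ (-σ) ≤ |cM k N0 d0 N1 d1 n| :=
    mul_le_of_le_one_right (abs_nonneg _) (rpow_le_one' hσ hn)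
  have h6 : tau n ^ 2 ≤ (n:ℝ) ^ 2 := pow_le_pow_left₀ (tau_nonneg n) h2 2
  have h7 : (1:ℝ) ≤ (n:ℝ) ^ 2 := one_le_pow₀ h1
  unfold del
  refine (abs_sub _ _).trans ?_
  rw [abs_mul, abs_of_nonneg (rpow_nonneg' (σ := σ) (n := n))]
  linarith

end point

/-! ### the sum -/

section sum

variable {k σ : ℝ} {N0 d0 N1 d1 Y : ℕ}

theorem sum_del (hk : 0 ≤ k) (hk1 : k ≤ 1) (hσ : 0 ≤ σ) (h01 : N0 ≤ N1) (hN0 : 1 ≤ N0) (hN1 : 1 ≤ N1)
    (hY : N0 ≤ Y + 1) :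
    ∑ n ∈ Icc 1 Y, del k σ N0 d0 N1 d1 n ^ 2 / (n:ℝ) ≤
      (σ * (d0 * Real.log N0)) ^ 2 * Real.exp (k ^ 2 * R1 N0) +
      (((N1:ℝ) ^ (-σ)) ^ 2 + (rr ^ d1)⁻¹) * Real.exp (k ^ 2 * R1 N0 + Km 2 * Dl N0 (Y + 1)) +
      (rr ^ d0)⁻¹ * Real.exp (Km 4 * R1 (Y + 1)) := by
  classical
  have hr := rr_pos
  have hsm : ∀ n ∈ Icc 1 Y, n ∈ Nat.smoothNumbers (Y + 1) := by
    intro n hn
    rw [mem_Icc] at hn
    rw [sm_iff]
    exact ⟨by omega, fun p _ hd => by have := Nat.le_of_dvd (by omega) hd; omega⟩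
  have h1 : ∑ n ∈ Icc 1 Y, del k σ N0 d0 N1 d1 n ^ 2 / (n:ℝ) ≤
      ∑ n ∈ Icc 1 Y, ((σ * (d0 * Real.log N0)) ^ 2 *
        ((if n ∈ Nat.smoothNumbers N0 then mf (wm k 2 N0) n else 0) / (n:ℝ)) +
      (((N1:ℝ) ^ (-σ)) ^ 2 + (rr ^ d1)⁻¹) * (mf (wm k 2 N0) n / (n:ℝ)) +
      (rr ^ d0)⁻¹ * (mf (tm 4) n / (n:ℝ))) := by
    refine sum_le_sum fun n hn => ?_
    rw [mem_Icc] at hn
    have h2 := del_sq (d0 := d0) (d1 := d1) (n := n) hk hk1 hσ h01 (by omega) hN0 hN1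
    have h3 : (0:ℝ) < n := by exact_mod_cast (by omega : 0 < n)
    rw [div_le_iff₀ h3]
    refine h2.trans (le_of_eq ?_)
    field_simp
  refine h1.trans ?_
  rw [sum_add_distrib, sum_add_distrib, ← mul_sum, ← mul_sum, ← mul_sum]
  have h4 : ∑ n ∈ Icc 1 Y, (if n ∈ Nat.smoothNumbers N0 then mf (wm k 2 N0) n else 0) / (n:ℝ) ≤
      Real.exp (k ^ 2 * R1 N0) := by
    have h5 : ∑ n ∈ Icc 1 Y, (if n ∈ Nat.smoothNumbers N0 then mf (wm k 2 N0) n else 0) / (n:ℝ) =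
        ∑ n ∈ (Icc 1 Y).filter (fun n => n ∈ Nat.smoothNumbers N0), mf (wm k 2 N0) n / (n:ℝ) := by
      rw [sum_filter]
      refine sum_congr rfl fun n _ => ?_
      split_ifs
      · rfl
      · rw [zero_div]
    rw [h5]
    obtain ⟨b1, b2⟩ := wm_bound (k := k) (m := 2) (le_refl N0)
    refine (fin_le_SS b1 (fun n _ => mf_nonneg wm_nonneg n) (fun n hn => (mem_filter.mp hn).2)).trans
      (b2.trans (le_of_eq ?_))
    unfold Dl
    rw [sub_self, mul_zero, add_zero]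
  have h6 : ∑ n ∈ Icc 1 Y, mf (wm k 2 N0) n / (n:ℝ) ≤
      Real.exp (k ^ 2 * R1 N0 + Km 2 * Dl N0 (Y + 1)) := by
    obtain ⟨b1, b2⟩ := wm_bound (k := k) (m := 2) hY
    exact (fin_le_SS b1 (fun n _ => mf_nonneg wm_nonneg n) hsm).trans b2
  have h7 : ∑ n ∈ Icc 1 Y, mf (tm 4) n / (n:ℝ) ≤ Real.exp (Km 4 * R1 (Y + 1)) := by
    obtain ⟨b1, b2⟩ := tm_bound 4 (Y + 1)
    exact (fin_le_SS b1 (fun n _ => mf_nonneg (tm_nonneg 4) n) hsm).trans b2
  refine add_le_add (add_le_add ?_ ?_) ?_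
  · exact mul_le_mul_of_nonneg_left h4 (sq_nonneg _)
  · exact mul_le_mul_of_nonneg_left h6 (by positivity)
  · exact mul_le_mul_of_nonneg_left h7 (by positivity)

/-- the Dirichlet polynomial of the difference -/
lemma Dr_diff (f g : ArithmeticFunction ℝ) (Y : ℕ) (σ : ℝ) (s : ℂ) :
    Dr f Y (s + (σ : ℂ)) - Dr g Y s = Dp (fun n => ((f n * (n:ℝ) ^ (-σ) - g n : ℝ) : ℂ)) Y s := by
  unfold Dr Dp
  rw [← sum_sub_distrib]
  refine sum_congr rfl fun n hn => ?_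
  rw [mem_Icc] at hn
  have hn0 : (n:ℂ) ≠ 0 := by exact_mod_cast (by omega : n ≠ 0)
  have h1 : (n:ℂ) ^ (-(s + (σ:ℂ))) = (n:ℂ) ^ (-s) * (((n:ℝ) ^ (-σ) : ℝ) : ℂ) := by
    rw [neg_add, Complex.cpow_add _ _ hn0, Complex.ofReal_cpow (Nat.cast_nonneg n)]
    push_cast
    rfl
  rw [h1]
  push_cast
  ring

end sum

/-! ### the theorem -/

lemma log_rr_pos : 0 < Real.log rr := Real.log_pos (by unfold rr; norm_num)

lemma inv_rr_pow_le {x : ℝ} {d : ℕ} (h : x ≤ d) : (rr ^ d)⁻¹ ≤ Real.exp (-(Real.log rr * x)) := by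
  have hr := rr_pos
  have h1 : rr ^ d = Real.exp (Real.log rr * d) := by
    rw [← Real.rpow_natCast, Real.rpow_def_of_pos hr]
  rw [h1, ← Real.exp_neg]
  apply Real.exp_le_exp.mpr
  have := mul_le_mul_of_nonneg_left h log_rr_pos.le
  linarith

theorem t_M3 (hMVC : P_MVC) : P_M3 := by
  obtain ⟨C, hC0, hC⟩ := R1_bd
  have hK2 := Km_nonneg 2
  have hK4 := Km_nonneg 4
  have hc := log_rr_pos
  refine ⟨2 * Km 2 + 4, by linarith, fun C2 hC2 => ?_⟩
  have hC20 : 0 < C2 := by linarith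
  filter_upwards [ev_Pm, ev_l (ev_pow_exp (512 * C2 ^ 2 * Real.exp C) 1 one_pos 8),
    ev_l (eventually_ge_atTop (C + Km 2 * (1 + 2 * C) + Real.log 32)),
    ev_l (ev_lin (Real.log rr) (4 * Km 2 + 3) (C + Km 2 * (1 + 2 * C) + Real.log 32) hc),
    ev_V (ev_lin (Real.log rr) (Km 4 + 3) (Km 4 * C + Real.log 32) hc),
    ev_L (ev_pow_exp 512 (13 / 20) (by norm_num) 3)] with T h g1 g2 g3 g4 g5
  intro k hk hk1
  have hT1 := h.T1
  have hl1 := h.l1
  have hV1 := h.V1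
  have hL1 := h.L1
  have hV0 : 0 < V T := by linarith
  have hL0 : 0 < Real.log T := by linarith
  have hT0 : 0 < T := by linarith
  obtain ⟨l, hl⟩ : ∃ l, l = l3 T := ⟨_, rfl⟩
  have hkk : k ^ 2 ≤ 1 := pow_le_one₀ hk hk1
  have hkk0 : 0 ≤ k ^ 2 := sq_nonneg k
  obtain ⟨σ, hσd⟩ : ∃ σ, σ = C2 * l3 T ^ 4 / Real.log T := ⟨_, rfl⟩
  have hσ : 0 ≤ σ := by rw [hσd]; positivity
  rw [← hσd]
  have e32 : Real.exp (Real.log 32) = 32 := Real.exp_log (by norm_num)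
  have hV3 : V T ^ (-(3:ℝ)) = Real.exp (-(3 * l)) := by
    rw [Real.rpow_def_of_pos hV0, hl]
    congr 1
    show l3 T * (-3) = _
    ring
  have hEk : 1 ≤ Real.exp (k ^ 2 * V T) := Real.one_le_exp (by positivity)
  have hEl := Real.exp_pos (-(3 * l))
  -- the function
  have e1 : ∀ t : ℝ, DL k T (cl t + ((σ : ℝ) : ℂ)) - AA k T (cl t) =
      Dp (fun n => ((del k σ (y0 T) (d0 T) (y1 T) (d1 T) n : ℝ) : ℂ)) (y2 T) (cl t) := by
    intro t
    unfold DL AA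
    exact Dr_diff _ _ _ _ _
  simp only [e1]
  have h1 := (abs_le.mp (hMVC (fun n => ((del k σ (y0 T) (d0 T) (y1 T) (d1 T) n : ℝ) : ℂ)) (y2 T)
    (T / 4) (8 * T) (by linarith))).2
  simp only [Complex.norm_real, Real.norm_eq_abs, sq_abs] at h1
  -- the diagonal
  have hN0 : 1 ≤ y0 T := by unfold y0; omega
  have hN1 : 1 ≤ y1 T := by unfold y1; omega
  have h2 := sum_del (d0 := d0 T) (d1 := d1 T) hk hk1 hσ h.y0_le_y1 hN0 hN1 h.y0_le_y2
  -- the first block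
  have hR := h.R1_y0_le hC
  have hexp1 : Real.exp (k ^ 2 * R1 (y0 T)) ≤ Real.exp C * Real.exp (k ^ 2 * V T) := by
    rw [← Real.exp_add]
    apply Real.exp_le_exp.mpr
    have := mul_le_mul_of_nonneg_left hR hkk0
    nlinarith
  have hA : σ * (d0 T * Real.log (y0 T)) ≤ 4 * C2 * l ^ 4 / V T ^ 2 := by
    have a1 := h.d0_le
    have a2 := h.log_y0
    have a3 : 0 ≤ Real.log (y0 T) := Real.log_nonneg (by exact_mod_cast hN0)
    have a4 : (d0 T : ℝ) * Real.log (y0 T) ≤ (2 * V T ^ 2) * (2 * (Real.log T / V T ^ 4)) :=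
      mul_le_mul a1 a2 a3 (by positivity)
    refine (mul_le_mul_of_nonneg_left a4 hσ).trans (le_of_eq ?_)
    rw [hσd, hl]
    field_simp
    ring
  have hA0 : 0 ≤ σ * (d0 T * Real.log (y0 T)) := by
    have a3 : 0 ≤ Real.log (y0 T) := Real.log_nonneg (by exact_mod_cast hN0)
    positivity
  have hE1 : (σ * (d0 T * Real.log (y0 T))) ^ 2 * Real.exp (k ^ 2 * R1 (y0 T)) ≤
      1 / 32 * (Real.exp (-(3 * l)) * Real.exp (k ^ 2 * V T)) := by
    have a1 : (σ * (d0 T * Real.log (y0 T))) ^ 2 ≤ (4 * C2 * l ^ 4 / V T ^ 2) ^ 2 :=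
      pow_le_pow_left₀ hA0 hA 2
    have a2 : (σ * (d0 T * Real.log (y0 T))) ^ 2 * Real.exp (k ^ 2 * R1 (y0 T)) ≤
        (4 * C2 * l ^ 4 / V T ^ 2) ^ 2 * (Real.exp C * Real.exp (k ^ 2 * V T)) :=
      mul_le_mul a1 hexp1 (Real.exp_pos _).le (sq_nonneg _)
    refine a2.trans ?_
    have a3 : (4 * C2 * l ^ 4 / V T ^ 2) ^ 2 * Real.exp C ≤ 1 / 32 * Real.exp (-(3 * l)) := by
      have a4 : Real.exp (-(3 * l)) = 1 / V T ^ 3 := by
        rw [h.eV, ← hl, Real.exp_neg, ← Real.exp_nat_mul, one_div]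
        norm_num
      rw [a4]
      rw [one_mul, ← h.eV, ← hl] at g1
      rw [div_pow, div_mul_eq_mul_div, div_le_iff₀ (by positivity)]
      have a5 : 1 / 32 * (1 / V T ^ 3) * (V T ^ 2) ^ 2 = V T / 32 := by
        field_simp
      rw [a5]
      nlinarith
    calc (4 * C2 * l ^ 4 / V T ^ 2) ^ 2 * (Real.exp C * Real.exp (k ^ 2 * V T)) =
          ((4 * C2 * l ^ 4 / V T ^ 2) ^ 2 * Real.exp C) * Real.exp (k ^ 2 * V T) := by ring
      _ ≤ (1 / 32 * Real.exp (-(3 * l))) * Real.exp (k ^ 2 * V T) :=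
          mul_le_mul_of_nonneg_right a3 (Real.exp_pos _).le
      _ = _ := by ring
  -- the second sum
  have hDl := h.Dl_le hC
  have hexp2 : Real.exp (k ^ 2 * R1 (y0 T) + Km 2 * Dl (y0 T) (y2 T + 1)) ≤
      Real.exp (C + Km 2 * (4 * l + 1 + 2 * C)) * Real.exp (k ^ 2 * V T) := by
    rw [← Real.exp_add]
    apply Real.exp_le_exp.mpr
    have a1 := mul_le_mul_of_nonneg_left hR hkk0
    have a2 := mul_le_mul_of_nonneg_left hDl hK2
    rw [← hl] at a2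
    nlinarith
  have hN1σ : ((y1 T : ℝ) ^ (-σ)) ^ 2 ≤ Real.exp (-(2 * C2 * l)) := by
    have a1 : (y1 T : ℝ) ^ (-σ) ≤ Real.exp (Real.log T / l3 T ^ 3) ^ (-σ) :=
      Real.rpow_le_rpow_of_nonpos (Real.exp_pos _) h.y1_ge (by linarith)
    have a2 : Real.exp (Real.log T / l3 T ^ 3) ^ (-σ) = Real.exp (-(C2 * l)) := by
      rw [← Real.exp_mul, hσd, hl]
      congr 1
      field_simp
    rw [a2] at a1
    have a3 := pow_le_pow_left₀ (Real.rpow_nonneg (Nat.cast_nonneg _) _) a1 2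
    refine a3.trans (le_of_eq ?_)
    rw [← Real.exp_nat_mul]
    congr 1
    push_cast
    ring
  have hE2 : (((y1 T : ℝ) ^ (-σ)) ^ 2 + (rr ^ d1 T)⁻¹) *
      Real.exp (k ^ 2 * R1 (y0 T) + Km 2 * Dl (y0 T) (y2 T + 1)) ≤
      2 / 32 * (Real.exp (-(3 * l)) * Real.exp (k ^ 2 * V T)) := by
    have a1 : (rr ^ d1 T)⁻¹ ≤ Real.exp (-(Real.log rr * l ^ 2)) := by
      apply inv_rr_pow_le
      rw [hl]
      exact h.d1_ge
    have a2 : Real.exp (-(2 * C2 * l)) * Real.exp (C + Km 2 * (4 * l + 1 + 2 * C)) ≤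
        1 / 32 * Real.exp (-(3 * l)) := by
      rw [one_div, ← e32, ← Real.exp_neg, ← Real.exp_add, ← Real.exp_add]
      apply Real.exp_le_exp.mpr
      rw [← hl] at g2 hl1
      nlinarith [mul_le_mul_of_nonneg_right hC2 (show 0 ≤ l by linarith)]
    have a3 : Real.exp (-(Real.log rr * l ^ 2)) * Real.exp (C + Km 2 * (4 * l + 1 + 2 * C)) ≤
        1 / 32 * Real.exp (-(3 * l)) := by
      rw [one_div, ← e32, ← Real.exp_neg, ← Real.exp_add, ← Real.exp_add]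
      apply Real.exp_le_exp.mpr
      rw [← hl] at g3
      linarith
    have a4 := mul_le_mul (add_le_add hN1σ a1) hexp2 (Real.exp_pos _).le (by positivity)
    refine a4.trans ?_
    have a5 : (Real.exp (-(2 * C2 * l)) + Real.exp (-(Real.log rr * l ^ 2))) *
        (Real.exp (C + Km 2 * (4 * l + 1 + 2 * C)) * Real.exp (k ^ 2 * V T)) =
        (Real.exp (-(2 * C2 * l)) * Real.exp (C + Km 2 * (4 * l + 1 + 2 * C)) +
          Real.exp (-(Real.log rr * l ^ 2)) * Real.exp (C + Km 2 * (4 * l + 1 + 2 * C))) *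
          Real.exp (k ^ 2 * V T) := by ring
    rw [a5]
    calc _ ≤ (1 / 32 * Real.exp (-(3 * l)) + 1 / 32 * Real.exp (-(3 * l))) *
          Real.exp (k ^ 2 * V T) := mul_le_mul_of_nonneg_right (add_le_add a2 a3) (Real.exp_pos _).le
      _ = _ := by ring
  -- the third sum
  have hE3 : (rr ^ d0 T)⁻¹ * Real.exp (Km 4 * R1 (y2 T + 1)) ≤
      1 / 32 * (Real.exp (-(3 * l)) * Real.exp (k ^ 2 * V T)) := by
    have a1 : (rr ^ d0 T)⁻¹ ≤ Real.exp (-(Real.log rr * V T ^ 2)) := inv_rr_pow_le h.d0_ge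
    have a2 : Real.exp (Km 4 * R1 (y2 T + 1)) ≤ Real.exp (Km 4 * (V T + C)) :=
      Real.exp_le_exp.mpr (mul_le_mul_of_nonneg_left (h.R1_y2_le hC) hK4)
    have a3 : Real.exp (-(Real.log rr * V T ^ 2)) * Real.exp (Km 4 * (V T + C)) ≤
        1 / 32 * Real.exp (-(3 * l)) := by
      rw [one_div, ← e32, ← Real.exp_neg, ← Real.exp_add, ← Real.exp_add]
      apply Real.exp_le_exp.mpr
      have := h.lV
      rw [← hl] at this
      linarith
    refine (mul_le_mul a1 a2 (Real.exp_pos _).le (Real.exp_pos _).le).trans (a3.trans ?_)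
    nlinarith
  -- the error
  have hsum : ∑ n ∈ Icc 1 (y2 T), |del k σ (y0 T) (d0 T) (y1 T) (d1 T) n| ≤ 2 * (y2 T : ℝ) ^ 3 := by
    have a1 : ∑ n ∈ Icc 1 (y2 T), |del k σ (y0 T) (d0 T) (y1 T) (d1 T) n| ≤
        ∑ _n ∈ Icc 1 (y2 T), 2 * (y2 T : ℝ) ^ 2 := by
      refine sum_le_sum fun n hn => ?_
      rw [mem_Icc] at hn
      refine (del_abs hk hk1 hσ (by omega)).trans ?_
      have : (n:ℝ) ≤ y2 T := by exact_mod_cast hn.2
      have := pow_le_pow_left₀ (Nat.cast_nonneg n) this 2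
      linarith
    rw [sum_const, nsmul_eq_mul, Nat.card_Icc] at a1
    refine a1.trans (le_of_eq ?_)
    push_cast
    ring
  have hsum0 : 0 ≤ ∑ n ∈ Icc 1 (y2 T), |del k σ (y0 T) (d0 T) (y1 T) (d1 T) n| :=
    sum_nonneg fun _ _ => abs_nonneg _
  have hE4 : 4 * (y2 T : ℝ) * (∑ n ∈ Icc 1 (y2 T), |del k σ (y0 T) (d0 T) (y1 T) (d1 T) n|) ^ 2 ≤
      1 / 32 * (T * (Real.exp (-(3 * l)) * Real.exp (k ^ 2 * V T))) := by
    have a1 := pow_le_pow_left₀ hsum0 hsum 2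
    have hy : (0:ℝ) ≤ y2 T := Nat.cast_nonneg _
    have a2 : 4 * (y2 T : ℝ) * (∑ n ∈ Icc 1 (y2 T), |del k σ (y0 T) (d0 T) (y1 T) (d1 T) n|) ^ 2 ≤
        16 * (y2 T : ℝ) ^ 7 := by
      calc _ ≤ 4 * (y2 T : ℝ) * (2 * (y2 T : ℝ) ^ 3) ^ 2 := mul_le_mul_of_nonneg_left a1 (by positivity)
        _ = _ := by ring
    have a3 : (y2 T : ℝ) ^ 7 ≤ Real.exp (7 / 20 * Real.log T) := by
      have a4 := pow_le_pow_left₀ hy h.y2_le 7
      refine a4.trans (le_of_eq ?_)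
      rw [h.rp, ← Real.exp_nat_mul]
      congr 1
      push_cast
      ring
    have a5 : Real.exp (7 / 20 * Real.log T) * Real.exp (13 / 20 * Real.log T) = T := by
      rw [← Real.exp_add]
      conv_rhs => rw [h.eT]
      congr 1
      ring
    have a6 : Real.exp (-(3 * l)) = 1 / V T ^ 3 := by
      rw [h.eV, ← hl, Real.exp_neg, ← Real.exp_nat_mul, one_div]
      norm_num
    have a7 : V T ^ 3 ≤ Real.log T ^ 3 := by
      apply pow_le_pow_left₀ hV0.le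
      have := Real.add_one_le_exp (V T)
      rw [← h.eL] at this
      linarith
    have a8 : 512 * V T ^ 3 ≤ Real.exp (13 / 20 * Real.log T) := by linarith
    have a9 : 16 * Real.exp (7 / 20 * Real.log T) ≤ 1 / 32 * (T * Real.exp (-(3 * l))) := by
      rw [a6]
      have b1 : 512 * V T ^ 3 * Real.exp (7 / 20 * Real.log T) ≤ T := by
        have b0 := mul_le_mul_of_nonneg_left a8 (Real.exp_pos (7 / 20 * Real.log T)).le
        rw [a5] at b0
        linarith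
      have b2 : 0 < V T ^ 3 := by positivity
      have b3 : 1 / 32 * (T * (1 / V T ^ 3)) = T / (32 * V T ^ 3) := by field_simp
      rw [b3, le_div_iff₀ (by positivity)]
      linarith
    have a10 : T * Real.exp (-(3 * l)) ≤ T * (Real.exp (-(3 * l)) * Real.exp (k ^ 2 * V T)) := by
      apply mul_le_mul_of_nonneg_left _ hT0.le
      exact le_mul_of_one_le_right hEl.le hEk
    linarith
  -- conclusion
  rw [hV3]
  obtain ⟨S, hS⟩ : ∃ S, S = ∑ n ∈ Icc 1 (y2 T), del k σ (y0 T) (d0 T) (y1 T) (d1 T) n ^ 2 / (n:ℝ) :=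
    ⟨_, rfl⟩
  obtain ⟨E, hE⟩ : ∃ E, E = Real.exp (-(3 * l)) * Real.exp (k ^ 2 * V T) := ⟨_, rfl⟩
  rw [← hS] at h1 h2
  rw [← hE] at hE1 hE2 hE3 hE4
  have hS' : S ≤ 1 / 8 * E := by linarith
  have hfin : (8 * T - T / 4) * S ≤ 31 / 32 * (T * E) := by
    have := mul_le_mul_of_nonneg_left hS' (show 0 ≤ 8 * T - T / 4 by linarith)
    nlinarith
  have hgoal : T * Real.exp (-(3 * l)) * Real.exp (k ^ 2 * V T) = T * E := by rw [hE]; ring
  rw [hgoal]
  linarith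

end Pool.Agent.Q151.CD
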